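import Mathlib

open Matrix Polynomial

namespace Pool.Agent.Results.MP_105763_al.ZeroIntersection

/-- `A` is multiplicity-free (it has `d + 1` mutually distinct eigenvalues `θ 0, …, θ d` in `K`)
and `E 0, …, E d` is an ordering of its primitive idempotents: `E i` is the identity on the
`θ i`-eigenspace of `A` and zero on the other eigenspaces. -/
def IsPrimIdemOrdering {K : Type} [Field K] {d : ℕ} (A : Matrix (Fin (d + 1)) (Fin (d + 1)) K)
    (E : Fin (d + 1) → Matrix (Fin (d + 1)) (Fin (d + 1)) K) : Prop :=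
  ∃ θ : Fin (d + 1) → K, Function.Injective θ ∧ (∀ i, ∃ v, v ≠ 0 ∧ A *ᵥ v = θ i • v) ∧
    ∀ i j v, A *ᵥ v = θ j • v → E i *ᵥ v = if i = j then v else 0

/-- `E i * B * E j` vanishes for `|i - j| > 1` and is nonzero for `|i - j| = 1`. -/
def IsTridiag {K : Type} [Field K] {d : ℕ} (B : Matrix (Fin (d + 1)) (Fin (d + 1)) K)
    (E : Fin (d + 1) → Matrix (Fin (d + 1)) (Fin (d + 1)) K) : Prop :=
  ∀ i j : Fin (d + 1), (1 < |(i : ℤ) - (j : ℤ)| → E i * B * E j = 0) ∧
    (|(i : ℤ) - (j : ℤ)| = 1 → E i * B * E j ≠ 0)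

/-- A Leonard system `(A; As; E; Es)` in the algebra of `(d + 1) × (d + 1)` matrices. -/
def IsLeonardSystem {K : Type} [Field K] {d : ℕ} (A As : Matrix (Fin (d + 1)) (Fin (d + 1)) K)
    (E Es : Fin (d + 1) → Matrix (Fin (d + 1)) (Fin (d + 1)) K) : Prop :=
  IsPrimIdemOrdering A E ∧ IsPrimIdemOrdering As Es ∧ IsTridiag As E ∧ IsTridiag A Es

lemma exists_basis {K : Type} [Field K] {d : ℕ} {A : Matrix (Fin (d + 1)) (Fin (d + 1)) K}
    {E : Fin (d + 1) → Matrix (Fin (d + 1)) (Fin (d + 1)) K} (h : IsPrimIdemOrdering A E) :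
    ∃ (θ : Fin (d + 1) → K) (b : Module.Basis (Fin (d + 1)) K (Fin (d + 1) → K)),
      Function.Injective θ ∧ (∀ i, A *ᵥ b i = θ i • b i) ∧
        ∀ i v, E i *ᵥ v = b.repr v i • b i := by
  obtain ⟨θ, hθ, hv, hE⟩ := h
  choose w hw0 hw using hv
  have hli : LinearIndependent K w :=
    Module.End.eigenvectors_linearIndependent' (Matrix.toLin' A) θ hθ w (fun i =>
      ⟨by rw [Module.End.mem_eigenspace_iff]; simpa using hw i, hw0 i⟩)
  let b := basisOfLinearIndependentOfCardEqFinrank hli (by simp)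
  have hb : ∀ i, b i = w i := fun i => by simp [b]
  refine ⟨θ, b, hθ, fun i => by rw [hb]; exact hw i, fun i v => ?_⟩
  conv_lhs => rw [← b.sum_repr v]
  rw [Matrix.mulVec_sum, Finset.sum_eq_single i]
  · rw [Matrix.mulVec_smul, hb, hE i i _ (hw i), if_pos rfl]
  · intro j _ hj
    rw [Matrix.mulVec_smul, hb, hE i j _ (hw j), if_neg (Ne.symm hj), smul_zero]
  · simp

theorem result (K : Type) [Field K] (d : ℕ) (A As : Matrix (Fin (d + 1)) (Fin (d + 1)) K)
    (E Es : Fin (d + 1) → Matrix (Fin (d + 1)) (Fin (d + 1)) K)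
    (h : IsLeonardSystem A As E Es) (r : ℕ) (hr : r ≤ d) (L : Finset (Fin (d + 1)))
    (hL : L.card ≤ d - r) :
    (⨆ i : Fin (d + 1), ⨆ (_ : (i : ℕ) ≤ r), LinearMap.range (Es i).mulVecLin) ⊓
      (⨆ j ∈ L, LinearMap.range (E j).mulVecLin) = ⊥ := by
  obtain ⟨h1, h2, -, hT⟩ := h
  obtain ⟨θ, w, hθ, hw, hE⟩ := exists_basis h1
  obtain ⟨_, u, -, -, hEs⟩ := exists_basis h2
  let ev : K[X] →ₗ[K] (Fin (d + 1) → K) :=
    { toFun := fun f => aeval A f *ᵥ u 0
      map_add' := fun f g => by rw [map_add, Matrix.add_mulVec]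
      map_smul' := fun c f => by rw [map_smul, Matrix.smul_mulVec]; rfl }
  have hevX : ∀ f, ev (X * f) = A *ᵥ ev f := fun f => by
    simp [ev, Matrix.mulVec_mulVec]
  let P : ℕ → Submodule K (Fin (d + 1) → K) := fun n => (degreeLT K (n + 1)).map ev
  have hPmono : ∀ {m n}, m ≤ n → P m ≤ P n := fun hmn =>
    Submodule.map_mono (degreeLT_mono (by omega))
  have hPA : ∀ n v, v ∈ P n → A *ᵥ v ∈ P (n + 1) := by
    rintro n _ ⟨f, hf, rfl⟩
    refine ⟨X * f, ?_, hevX f⟩
    simp only [SetLike.mem_coe, mem_degreeLT] at hf ⊢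
    by_cases h0 : f = 0
    · simp [h0]
    · rw [degree_mul, degree_X, degree_eq_natDegree h0] at *
      norm_cast at *
      omega
  have hu : ∀ n (hn : n < d + 1), u ⟨n, hn⟩ ∈ P n := by
    intro n
    induction n using Nat.strong_induction_on with
    | _ n ih =>
      intro hn
      rcases n with _ | n
      · refine ⟨1, ?_, by simp [ev]⟩
        simp [mem_degreeLT]
      · let i : Fin (d + 1) := ⟨n, by omega⟩
        let i' : Fin (d + 1) := ⟨n + 1, hn⟩
        have happ : ∀ k v, (Es k * A * Es i) *ᵥ v =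
            u.repr v i • u.repr (A *ᵥ u i) k • u k := by
          intro k v
          rw [← Matrix.mulVec_mulVec, ← Matrix.mulVec_mulVec, hEs i, Matrix.mulVec_smul,
            Matrix.mulVec_smul, hEs k]
        have hc : u.repr (A *ᵥ u i) i' ≠ 0 := by
          intro h0
          apply (hT i' i).2 (by simp [i, i'])
          apply Matrix.toLin'.injective
          ext1 j
          apply LinearMap.ext; intro x
          simp only [LinearMap.comp_apply, Matrix.toLin'_apply, happ, h0, zero_smul, smul_zero,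
            Matrix.zero_mulVec]
        have hsum := u.sum_repr (A *ᵥ u i)
        rw [← Finset.add_sum_erase _ _ (Finset.mem_univ i')] at hsum
        have hmem : u.repr (A *ᵥ u i) i' • u i' ∈ P (n + 1) := by
          rw [eq_sub_of_add_eq hsum]
          refine Submodule.sub_mem _ (hPA n _ (ih n (by omega) _)) (Submodule.sum_mem _ ?_)
          intro k hk
          have hk' : (k : ℕ) ≠ n + 1 := fun h => (Finset.ne_of_mem_erase hk) (Fin.ext h)
          by_cases hkn : (k : ℕ) ≤ n
          · exact Submodule.smul_mem _ _ (hPmono (by omega) (ih k (by omega) k.2))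
          · have h0 := (hT k i).1 (by
              simp only [i]
              rw [lt_abs]; left; push_cast; omega)
            have := happ k (u i)
            rw [h0] at this
            simp only [Matrix.zero_mulVec, Module.Basis.repr_self, Finsupp.single_eq_same,
              one_smul] at this
            rw [← this]; exact Submodule.zero_mem _
        exact (Submodule.smul_mem_iff _ hc).1 hmem
  have hwA : ∀ j v, w.repr (A *ᵥ v) j = θ j * w.repr v j := by
    intro j v
    conv_lhs => rw [← w.sum_repr v]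
    rw [Matrix.mulVec_sum, map_sum, Finsupp.finsetSum_apply, Finset.sum_eq_single j]
    · rw [Matrix.mulVec_smul, hw]; simp [mul_comm]
    · intro k _ hk
      rw [Matrix.mulVec_smul, hw]; simp [hk]
    · simp
  have hwev : ∀ j f, w.repr (ev f) j = f.eval (θ j) * w.repr (u 0) j := by
    intro j f
    induction f using Polynomial.induction_on with
    | C a =>
      have : ev (C a) = a • u 0 := by
        simp [ev, Algebra.algebraMap_eq_smul_one, Matrix.smul_mulVec]
      rw [this]; simp
    | add p q hp hq => rw [map_add, map_add, Finsupp.add_apply, hp, hq, eval_add, add_mul]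
    | monomial n a ih =>
      rw [show C a * X ^ (n + 1) = X * (C a * X ^ n) by ring, hevX, hwA, ih]
      simp only [eval_mul, eval_X]; ring
  have hu0 : ∀ j, w.repr (u 0) j ≠ 0 := by
    intro j h0
    have hz : ∀ i, w.repr (u i) j = 0 := by
      intro i
      obtain ⟨f, -, hf⟩ := hu i i.2
      have : u i = ev f := hf.symm
      rw [this, hwev, h0, mul_zero]
    have : w.repr (w j) j = 0 := by
      rw [← u.sum_repr (w j), map_sum, Finsupp.finsetSum_apply]
      simp [hz]
    simp at this
  rw [eq_bot_iff]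
  rintro v ⟨hv1, hv2⟩
  have hv1' : v ∈ P r := by
    refine (iSup_le fun i => iSup_le fun hi => ?_ : _ ≤ P r) hv1
    rintro _ ⟨x, rfl⟩
    rw [Matrix.mulVecLin_apply, hEs]
    exact Submodule.smul_mem _ _ (hPmono hi (hu i i.2))
  obtain ⟨f, hf, rfl⟩ := hv1'
  have hroot : ∀ k, k ∉ L → f.eval (θ k) = 0 := by
    intro k hk
    have : ev f ∈ LinearMap.ker (w.coord k) := by
      refine (iSup_le fun j => iSup_le fun hj => ?_ : _ ≤ LinearMap.ker (w.coord k)) hv2
      rintro _ ⟨x, rfl⟩
      have hjk : j ≠ k := fun h => hk (h ▸ hj)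
      rw [Matrix.mulVecLin_apply, hE]
      simp [hjk]
    rw [LinearMap.mem_ker, Module.Basis.coord_apply, hwev] at this
    exact (mul_eq_zero.1 this).resolve_right (hu0 k)
  have hf0 : f = 0 := by
    refine Polynomial.eq_zero_of_degree_lt_of_eval_index_eq_zero (Lᶜ) (v := θ) hθ.injOn ?_
      (fun k hk => hroot k (Finset.mem_compl.1 hk))
    refine lt_of_lt_of_le (mem_degreeLT.1 hf) ?_
    rw [Finset.card_compl, Fintype.card_fin]
    norm_cast; omega
  rw [hf0, map_zero]; exact Submodule.zero_mem _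

end Pool.Agent.Results.MP_105763_al.ZeroIntersection
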